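import Pool.Agent.N70.EO.Stm
import Pool.Agent.N70.EP.Dens

/-!
Project EO: the density of the odd numbers.
-/

set_option autoImplicit false

namespace Pool.Agent.N607.EO

open Finset

/-- The numbers with a prime factor in each of two finite sets. -/
theorem dno_core (D c : ℕ) (A : ℕ → Prop)
    (h : ∀ u : ℕ, u.Prime → u % 4 = 3 → Nat.Coprime u c → ∃ s₀ : ℕ, ∀ s ≥ s₀, Odd s →
      ∃ k₀ : ℕ, ∀ k ≥ k₀, A (u * (D * s) * (2 * k + 1))) (F₁ : Finset ℕ)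
    (hF₁ : ∀ u ∈ F₁, u.Prime ∧ u % 4 = 3 ∧ Nat.Coprime u c) (η : ℝ) (hη : 0 < η) :
    ∃ (F₂ : Finset ℕ) (U₀ : ℕ), (∀ p ∈ F₂, p.Prime) ∧ ∏ p ∈ F₂, (1 - (p : ℝ)⁻¹) < η ∧
      ∀ v : ℕ, U₀ ≤ v → Odd v → (∃ p ∈ F₁, p ∣ v) → (∃ p ∈ F₂, p ∣ v) → A (D * v) := by
  classical
  have h' : ∀ u : ℕ, ∃ s₀ : ℕ, u ∈ F₁ → ∀ s ≥ s₀, Odd s → ∃ k₀ : ℕ, ∀ k ≥ k₀,
      A (u * (D * s) * (2 * k + 1)) := by
    intro u
    by_cases hu : u ∈ F₁
    · obtain ⟨s₀, hs₀⟩ := h u (hF₁ u hu).1 (hF₁ u hu).2.1 (hF₁ u hu).2.2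
      exact ⟨s₀, fun _ => hs₀⟩
    · exact ⟨0, fun h1 => absurd h1 hu⟩
  choose s₀ hs₀ using h'
  obtain ⟨R, hR⟩ : ∃ R : ℕ, ∀ p ∈ F₁, s₀ p ≤ R ∧ p < R := by
    refine ⟨(F₁.sup fun p => s₀ p + p) + 1, fun p hp => ?_⟩
    have h1 : s₀ p + p ≤ _ := Finset.le_sup (f := fun p : ℕ => s₀ p + p) hp
    omega
  obtain ⟨F₂, hF₂, hprod⟩ := Pool.Agent.N70.EP.exists_primes R η hη
  have h2 : ∀ p s : ℕ, ∃ k₀ : ℕ, p ∈ F₁ → s ∈ F₂ → ∀ k ≥ k₀,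
      A (p * (D * s) * (2 * k + 1)) := by
    intro p s
    by_cases hc : p ∈ F₁ ∧ s ∈ F₂
    · obtain ⟨hp, hs⟩ := hc
      have h3 := hF₂ s hs
      obtain ⟨k₀, hk₀⟩ := hs₀ p hp s ((hR p hp).1.trans h3.2.1) (h3.1.odd_of_ne_two (by omega))
      exact ⟨k₀, fun _ _ => hk₀⟩
    · exact ⟨0, fun a b => absurd ⟨a, b⟩ hc⟩
  choose k₀ hk₀ using h2
  obtain ⟨K, hK⟩ : ∃ K : ℕ, ∀ p ∈ F₁, ∀ s ∈ F₂, k₀ p s ≤ K := by
    refine ⟨(F₁ ×ˢ F₂).sup fun x => k₀ x.1 x.2, fun p hp s hs => ?_⟩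
    exact Finset.le_sup (f := fun x : ℕ × ℕ => k₀ x.1 x.2)
      (Finset.mem_product.2 ⟨hp, hs⟩ : (p, s) ∈ _)
  have hM : ∀ s ∈ F₂, s ≤ F₂.sup id := fun s hs => Finset.le_sup (f := id) hs
  refine ⟨F₂, R * (F₂.sup id) * (2 * K + 1) + 1, fun p hp => (hF₂ p hp).1, hprod, ?_⟩
  rintro v hv hodd ⟨p, hp, hpv⟩ ⟨s, hs, hsv⟩
  have hne : p ≠ s := by
    have h1 := (hR p hp).2
    have h2 := (hF₂ s hs).2.1
    omega
  obtain ⟨w, rfl⟩ := Nat.Coprime.mul_dvd_of_dvd_of_dvd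
    ((Nat.coprime_primes (hF₁ p hp).1 (hF₂ s hs).1).2 hne) hpv hsv
  obtain ⟨k, rfl⟩ : Odd w := (Nat.odd_mul.1 hodd).2
  have hk : K ≤ k := by
    by_contra hcon
    have h1 : p * s * (2 * k + 1) ≤ R * (F₂.sup id) * (2 * K + 1) :=
      Nat.mul_le_mul (Nat.mul_le_mul (hR p hp).2.le (hM s hs)) (by omega)
    omega
  have h5 := hk₀ p s hp hs k ((hK p hp s hs).trans hk)
  have h6 : D * (p * s * (2 * k + 1)) = p * (D * s) * (2 * k + 1) := by ring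
  rw [h6]
  exact h5

theorem t_dno : Pool.Agent.N70.EO.St_dnOf := by
  classical
  intro hdna D c A hD hc h ε hε
  have hε4 : 0 < ε / 4 := by positivity
  obtain ⟨F₁, hF₁, hp₁⟩ := hdna c hc (ε / 4) hε4
  simp only [one_div] at hp₁
  obtain ⟨F₂, U₀, hF₂, hp₂, hA⟩ := dno_core D c A h F₁ hF₁ (ε / 4) hε4
  obtain ⟨C₁, hC₁⟩ := Pool.Agent.N70.EP.count_coprime F₁ fun p hp => (hF₁ p hp).1
  obtain ⟨C₂, hC₂⟩ := Pool.Agent.N70.EP.count_coprime F₂ hF₂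
  obtain ⟨N, hN⟩ := exists_nat_ge ((U₀ + C₁ + C₂) / (ε / 4))
  refine ⟨N, fun x hx => ?_⟩
  have hD0 : 0 < D := hD.pos
  have h1 : ((range x).filter fun n => D ∣ n ∧ Odd n ∧ ¬ A n).card ≤
      ((range U₀) ∪ (((range x).filter fun u => ∀ p ∈ F₁, ¬ p ∣ u) ∪
        ((range x).filter fun u => ∀ p ∈ F₂, ¬ p ∣ u))).card := by
    refine Finset.card_le_card_of_injOn (fun n => n / D) ?_ ?_
    · intro n hn
      rw [Finset.coe_filter, Set.mem_ofPred_eq, Finset.mem_range] at hn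
      obtain ⟨hn, ⟨u, rfl⟩, hodd, hnA⟩ := hn
      have h2 : D * u / D = u := Nat.mul_div_cancel_left u hD0
      have h3 : u < x := by
        have : 1 * u ≤ D * u := Nat.mul_le_mul_right _ (by omega)
        omega
      rw [Finset.mem_coe]
      beta_reduce
      rw [h2, Finset.mem_union, Finset.mem_union, Finset.mem_filter,
        Finset.mem_filter, Finset.mem_range, Finset.mem_range]
      by_contra hcon
      push Not at hcon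
      obtain ⟨h4, h6, h7⟩ := hcon
      exact hnA (hA u h4 (Nat.odd_mul.1 hodd).2 (h6 h3) (h7 h3))
    · rintro n hn n' hn' hnn
      rw [Finset.coe_filter, Set.mem_ofPred_eq] at hn hn'
      obtain ⟨_, ⟨u, rfl⟩, _⟩ := hn
      obtain ⟨_, ⟨u', rfl⟩, _⟩ := hn'
      have h2 : ∀ u, D * u / D = u := fun u => Nat.mul_div_cancel_left u hD0
      have h3 : D * u / D = D * u' / D := hnn
      rw [h2, h2] at h3
      rw [h3]
  have h2 : (((range U₀) ∪ (((range x).filter fun u => ∀ p ∈ F₁, ¬ p ∣ u) ∪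
        ((range x).filter fun u => ∀ p ∈ F₂, ¬ p ∣ u))).card : ℝ) ≤
      U₀ + (((∏ p ∈ F₁, (1 - (p : ℝ)⁻¹)) * x + C₁) + ((∏ p ∈ F₂, (1 - (p : ℝ)⁻¹)) * x + C₂)) := by
    refine (Nat.cast_le.2 (Finset.card_union_le _ _)).trans ?_
    rw [Nat.cast_add, Finset.card_range]
    refine add_le_add le_rfl ?_
    refine (Nat.cast_le.2 (Finset.card_union_le _ _)).trans ?_
    rw [Nat.cast_add]
    exact add_le_add (hC₁ x) (hC₂ x)
  have hx' : (U₀ + C₁ + C₂) / (ε / 4) ≤ x := hN.trans (by exact_mod_cast hx)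
  rw [div_le_iff₀ hε4] at hx'
  have hx0 : (0 : ℝ) ≤ x := Nat.cast_nonneg _
  have h3 : (((range x).filter fun n => D ∣ n ∧ Odd n ∧ ¬ A n).card : ℝ) ≤ ε * x := by
    refine (Nat.cast_le.2 h1).trans (h2.trans ?_)
    nlinarith [mul_le_mul_of_nonneg_right hp₁.le hx0, mul_le_mul_of_nonneg_right hp₂.le hx0]
  convert h3 using 3

end Pool.Agent.N607.EO
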